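import Mathlib

namespace Pool.Agent.P.MP_b90300_al

universe u

/-- The `n`-th symbolic power of `I`: the intersection, over the minimal primes `p` of `I`, of the
contractions to `R` of the extended ideals `I ^ n R_p`. -/
noncomputable def symbolicPower {R : Type u} [CommRing R] (I : Ideal R) (n : ℕ) : Ideal R :=
  ⨅ (p : PrimeSpectrum R) (_ : p.asIdeal ∈ I.minimalPrimes),
    ((I ^ n).map (algebraMap R (Localization.AtPrime p.asIdeal))).comap
      (algebraMap R (Localization.AtPrime p.asIdeal))

/-- The depth of `R ⧸ J` for the polynomial ring `R = K[x_1, …, x_r]`: the supremum of the lengths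
of the `R ⧸ J`-regular sequences contained in the ideal `(x_1, …, x_r)`. -/
noncomputable def depth {K : Type u} [Field K] {r : ℕ} (J : Ideal (MvPolynomial (Fin r) K)) : ℕ∞ :=
  ⨆ (rs : List (MvPolynomial (Fin r) K))
    (_ : ∀ f ∈ rs, f ∈ Ideal.span (Set.range (MvPolynomial.X : Fin r → MvPolynomial (Fin r) K)))
    (_ : RingTheory.Sequence.IsRegular (MvPolynomial (Fin r) K ⧸ J) rs), (rs.length : ℕ∞)

/-- A monomial ideal: an ideal generated by a set of monomials. -/
def IsMonomialIdeal {K : Type u} [Field K] {r : ℕ} (I : Ideal (MvPolynomial (Fin r) K)) : Prop :=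
  ∃ S : Set (Fin r →₀ ℕ), I = Ideal.span ((fun a => MvPolynomial.monomial a (1 : K)) '' S)

end Pool.Agent.P.MP_b90300_al
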