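import Mathlib

open CategoryTheory Abelian

namespace Pool.Agent.P.MP_b90300_al

universe u

variable {R : Type u} [CommRing R]

/-- Vanishing of the groups `Ext^i(N, M)` for all `i < n`. -/
def DE (N : ModuleCat.{u} R) (M : Type u) [AddCommGroup M] [Module R M] (n : ℕ) : Prop :=
  ∀ i < n, Subsingleton (Ext N (ModuleCat.of R M) i)

section ses

variable (N : ModuleCat.{u} R) {A B C : Type u} [AddCommGroup A] [Module R A]
  [AddCommGroup B] [Module R B] [AddCommGroup C] [Module R C]

lemma DE.mono {N : ModuleCat.{u} R} {n k : ℕ} (h : DE N A n) (hk : k ≤ n) : DE N A k :=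
  fun i hi => h i (lt_of_lt_of_le hi hk)

lemma shortExact_of (f : A →ₗ[R] B) (g : B →ₗ[R] C) (hf : Function.Injective f)
    (hg : Function.Surjective g) (hfg : Function.Exact f g) :
    (ModuleCat.shortComplexOfCompEqZero f g hfg.linearMap_comp_eq_zero).ShortExact :=
  ModuleCat.shortComplex_shortExact _ hfg hf hg

lemma DE_mid (f : A →ₗ[R] B) (g : B →ₗ[R] C) (hf : Function.Injective f)
    (hg : Function.Surjective g) (hfg : Function.Exact f g) {n : ℕ}
    (hA : DE N A n) (hC : DE N C n) : DE N B n := by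
  intro i hi
  have hS := shortExact_of f g hf hg hfg
  have h1 := hA i hi
  have h3 := hC i hi
  refine subsingleton_of_forall_eq 0 fun x => ?_
  obtain ⟨y, hy⟩ := Ext.covariant_sequence_exact₂ N hS x (Subsingleton.elim _ _)
  rw [← hy, Subsingleton.elim y 0, Ext.zero_comp]

lemma DE_left (f : A →ₗ[R] B) (g : B →ₗ[R] C) (hf : Function.Injective f)
    (hg : Function.Surjective g) (hfg : Function.Exact f g) {n : ℕ}
    (hB : DE N B (n + 1)) (hC : DE N C n) : DE N A (n + 1) := by
  intro i hi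
  have hS := shortExact_of f g hf hg hfg
  have h2 := hB i hi
  refine subsingleton_of_forall_eq 0 fun x => ?_
  rcases i with _ | i
  · have := hS.mono_f
    apply Ext.postcomp_mk₀_injective_of_mono N
      (ModuleCat.shortComplexOfCompEqZero f g hfg.linearMap_comp_eq_zero).f
    exact Subsingleton.elim _ _
  · have h3 := hC i (by omega)
    obtain ⟨y, hy⟩ := Ext.covariant_sequence_exact₁ N hS x (Subsingleton.elim _ _) (n₀ := i) rfl
    rw [← hy, Subsingleton.elim y 0, Ext.zero_comp]

lemma DE_right (f : A →ₗ[R] B) (g : B →ₗ[R] C) (hf : Function.Injective f)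
    (hg : Function.Surjective g) (hfg : Function.Exact f g) {n : ℕ}
    (hA : DE N A (n + 1)) (hB : DE N B n) : DE N C n := by
  intro i hi
  have hS := shortExact_of f g hf hg hfg
  have h1 := hA (i + 1) (by omega)
  have h2 := hB i hi
  refine subsingleton_of_forall_eq 0 fun x => ?_
  obtain ⟨y, hy⟩ := Ext.covariant_sequence_exact₃ N hS x (n₁ := i + 1) rfl (Subsingleton.elim _ _)
  rw [← hy, Subsingleton.elim y 0, Ext.zero_comp]

lemma DE_succ_of_regular (x : R) (hx : x ∈ Module.annihilator R N) (g : A →ₗ[R] C)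
    (hf : Function.Injective (LinearMap.lsmul R A x))
    (hg : Function.Surjective g) (hfg : Function.Exact (LinearMap.lsmul R A x) g) {n : ℕ}
    (hC : DE N C n) : DE N A (n + 1) := by
  intro i hi
  have hS := shortExact_of _ g hf hg hfg
  have hz : ∀ (j : ℕ) (y : Ext N (ModuleCat.of R A) j), y.comp (Ext.mk₀
      (ModuleCat.shortComplexOfCompEqZero _ g hfg.linearMap_comp_eq_zero).f) (add_zero j) = 0 := by
    intro j y
    have h0 := Ext.postcomp_smul_id_eq_zero_of_mem_annihilator (M := ModuleCat.of R A) hx j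
    have h1 := congrArg (fun φ => φ.hom y) h0
    exact h1
  refine subsingleton_of_forall_eq 0 fun y => ?_
  rcases i with _ | i
  · have := hS.mono_f
    apply Ext.postcomp_mk₀_injective_of_mono N
      (ModuleCat.shortComplexOfCompEqZero _ g hfg.linearMap_comp_eq_zero).f
    rw [map_zero]
    exact hz 0 y
  · have h3 := hC i (by omega)
    obtain ⟨y', hy⟩ := Ext.covariant_sequence_exact₁ N hS y (hz _ y) (n₀ := i) rfl
    rw [← hy, Subsingleton.elim y' 0, Ext.zero_comp]

lemma DE_prod {n : ℕ} (hA : DE N A n) (hB : DE N B n) : DE N (A × B) n :=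
  DE_mid N (LinearMap.inl R A B) (LinearMap.snd R A B) LinearMap.inl_injective
    LinearMap.snd_surjective Function.Exact.inl_snd hA hB

lemma exists_regular_of_DE_one [IsNoetherianRing R] [Module.Finite R A] [Module.Finite R N]
    (h : DE N A 1) : ∃ r ∈ Module.annihilator R N, IsSMulRegular A r := by
  have h0 := h 0 (by omega)
  have h1 : Subsingleton (N ⟶ ModuleCat.of R A) := Ext.addEquiv₀.subsingleton_congr.mp h0
  have h2 : Subsingleton (N →ₗ[R] A) :=
    (ModuleCat.homAddEquiv (M := N) (N := ModuleCat.of R A)).symm.subsingleton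
  exact IsSMulRegular.subsingleton_linearMap_iff.mp h2

end ses

section ideals

variable (N : ModuleCat.{u} R)

/-- The first map of the Mayer-Vietoris sequence of two ideals. -/
def mvF (I J : Ideal R) : (R ⧸ (I ⊓ J)) →ₗ[R] (R ⧸ I) × (R ⧸ J) :=
  LinearMap.prod (Submodule.factor inf_le_left) (Submodule.factor inf_le_right)

/-- The second map of the Mayer-Vietoris sequence of two ideals. -/
def mvG (I J : Ideal R) : (R ⧸ I) × (R ⧸ J) →ₗ[R] (R ⧸ (I ⊔ J)) :=
  LinearMap.coprod (Submodule.factor le_sup_left) (-Submodule.factor le_sup_right)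

lemma mvF_mk (I J : Ideal R) (r : R) :
    mvF I J (Submodule.Quotient.mk r) = (Submodule.Quotient.mk r, Submodule.Quotient.mk r) := rfl

lemma mvG_mk (I J : Ideal R) (r s : R) :
    mvG I J (Submodule.Quotient.mk r, Submodule.Quotient.mk s) =
      Submodule.Quotient.mk (r - s) := by
  rw [sub_eq_add_neg, Submodule.Quotient.mk_add, Submodule.Quotient.mk_neg]
  rfl

lemma mvF_injective (I J : Ideal R) : Function.Injective (mvF I J) := by
  rw [injective_iff_map_eq_zero]
  intro x hx
  obtain ⟨r, rfl⟩ := Submodule.Quotient.mk_surjective _ x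
  rw [mvF_mk, Prod.mk_eq_zero, Submodule.Quotient.mk_eq_zero, Submodule.Quotient.mk_eq_zero] at hx
  exact (Submodule.Quotient.mk_eq_zero _).2 hx

lemma mvG_surjective (I J : Ideal R) : Function.Surjective (mvG I J) := by
  intro x
  obtain ⟨r, rfl⟩ := Submodule.Quotient.mk_surjective _ x
  exact ⟨(Submodule.Quotient.mk r, Submodule.Quotient.mk 0), by rw [mvG_mk, sub_zero]⟩

lemma mv_exact (I J : Ideal R) : Function.Exact (mvF I J) (mvG I J) := by
  rintro ⟨x, y⟩
  obtain ⟨r, rfl⟩ := Submodule.Quotient.mk_surjective _ x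
  obtain ⟨s, rfl⟩ := Submodule.Quotient.mk_surjective _ y
  rw [mvG_mk, Submodule.Quotient.mk_eq_zero]
  constructor
  · intro h
    obtain ⟨a, ha, b, hb, hab⟩ := Submodule.mem_sup.1 h
    refine ⟨Submodule.Quotient.mk (r - a), ?_⟩
    rw [mvF_mk, Prod.mk.injEq, Submodule.Quotient.eq, Submodule.Quotient.eq]
    constructor
    · have : r - a - r = -a := by ring
      rw [this]
      exact I.neg_mem ha
    · have : r - a - s = b := by linear_combination -hab
      rw [this]
      exact hb
  · rintro ⟨z, hz⟩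
    obtain ⟨c, rfl⟩ := Submodule.Quotient.mk_surjective _ z
    rw [mvF_mk, Prod.mk.injEq, Submodule.Quotient.eq, Submodule.Quotient.eq] at hz
    have : r - s = -(c - r) + (c - s) := by ring
    rw [this]
    exact Submodule.add_mem_sup (I.neg_mem hz.1) hz.2

lemma DE_inf {I J : Ideal R} {n : ℕ} (hI : DE N (R ⧸ I) (n + 1)) (hJ : DE N (R ⧸ J) (n + 1))
    (hIJ : DE N (R ⧸ (I ⊔ J)) n) : DE N (R ⧸ (I ⊓ J)) (n + 1) :=
  DE_left N (mvF I J) (mvG I J) (mvF_injective I J) (mvG_surjective I J) (mv_exact I J)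
    (DE_prod N hI hJ) hIJ

lemma DE_sup {I J : Ideal R} {n : ℕ} (hI : DE N (R ⧸ I) n) (hJ : DE N (R ⧸ J) n)
    (hIJ : DE N (R ⧸ (I ⊓ J)) (n + 1)) : DE N (R ⧸ (I ⊔ J)) n :=
  DE_right N (mvF I J) (mvG I J) (mvF_injective I J) (mvG_surjective I J) (mv_exact I J)
    hIJ (DE_prod N hI hJ)

lemma lsmul_injective {I : Ideal R} {x : R} (hx : ∀ f, x * f ∈ I → f ∈ I) :
    Function.Injective (LinearMap.lsmul R (R ⧸ I) x) := by
  rw [injective_iff_map_eq_zero]
  intro y hy
  obtain ⟨r, rfl⟩ := Submodule.Quotient.mk_surjective _ y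
  rw [LinearMap.lsmul_apply, ← Submodule.Quotient.mk_smul, Submodule.Quotient.mk_eq_zero] at hy
  exact (Submodule.Quotient.mk_eq_zero _).2 (hx r hy)

lemma factor_exact (I : Ideal R) (x : R) :
    Function.Exact (LinearMap.lsmul R (R ⧸ I) x)
      (Submodule.factor (le_sup_left : I ≤ I ⊔ Ideal.span {x})) := by
  intro y
  obtain ⟨r, rfl⟩ := Submodule.Quotient.mk_surjective _ y
  have h0 : Submodule.factor (le_sup_left : I ≤ I ⊔ Ideal.span {x}) (Submodule.Quotient.mk r) =
      Submodule.Quotient.mk r := rfl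
  rw [h0, Submodule.Quotient.mk_eq_zero]
  constructor
  · intro h
    obtain ⟨a, ha, b, hb, hab⟩ := Submodule.mem_sup.1 h
    obtain ⟨c, rfl⟩ := Ideal.mem_span_singleton'.1 hb
    refine ⟨Submodule.Quotient.mk c, ?_⟩
    rw [LinearMap.lsmul_apply, ← Submodule.Quotient.mk_smul, Submodule.Quotient.eq]
    have : x • c - r = -a := by
      rw [smul_eq_mul]
      linear_combination hab
    rw [this]
    exact I.neg_mem ha
  · rintro ⟨z, hz⟩
    obtain ⟨c, rfl⟩ := Submodule.Quotient.mk_surjective _ z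
    rw [LinearMap.lsmul_apply, ← Submodule.Quotient.mk_smul, Submodule.Quotient.eq] at hz
    have : r = -(x • c - r) + c * x := by
      rw [smul_eq_mul]
      ring
    rw [this]
    exact Submodule.add_mem_sup (I.neg_mem hz) (Ideal.mem_span_singleton'.2 ⟨c, rfl⟩)

lemma DE_succ_of_nzd {I : Ideal R} {x : R} (hxN : x ∈ Module.annihilator R N)
    (hx : ∀ f, x * f ∈ I → f ∈ I) {n : ℕ} (h : DE N (R ⧸ (I ⊔ Ideal.span {x})) n) :
    DE N (R ⧸ I) (n + 1) :=
  DE_succ_of_regular N x hxN _ (lsmul_injective hx) (Submodule.factor_surjective _)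
    (factor_exact I x) h

lemma DE_pred_of_nzd {I : Ideal R} {x : R}
    (hx : ∀ f, x * f ∈ I → f ∈ I) {n : ℕ} (h : DE N (R ⧸ I) (n + 1)) :
    DE N (R ⧸ (I ⊔ Ideal.span {x})) n :=
  DE_right N _ _ (lsmul_injective hx) (Submodule.factor_surjective _) (factor_exact I x) h
    (h.mono (Nat.le_succ n))

end ideals

section rees

variable [IsNoetherianRing R]

lemma DE_iff_regular (m J : Ideal R) (hJ : J ⊔ m ≠ ⊤) (n : ℕ) :
    DE (ModuleCat.of R (R ⧸ m)) (R ⧸ J) n ↔
      ∃ rs : List R, rs.length = n ∧ (∀ r ∈ rs, r ∈ m) ∧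
        RingTheory.Sequence.IsRegular (R ⧸ J) rs := by
  have hlt : m • (⊤ : Submodule R (ModuleCat.of R (R ⧸ J))) < ⊤ := by
    rw [lt_top_iff_ne_top]
    intro h
    apply hJ
    have h1 := congrArg (Submodule.comap (Submodule.mkQ J)) h
    rw [Submodule.comap_smul_top_of_surjective m _ (Submodule.mkQ_surjective _)] at h1
    simpa [sup_comm] using h1
  have hsupp : Module.support R (ModuleCat.of R (R ⧸ m)) = PrimeSpectrum.zeroLocus m := by
    rw [Module.support_eq_zeroLocus, Ideal.annihilator_quotient]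
  constructor
  · intro h
    exact ModuleCat.exists_isRegular_of_exists_subsingleton_ext m n (ModuleCat.of R (R ⧸ J)) hlt
      (ModuleCat.of R (R ⧸ m)) hsupp h
  · rintro ⟨rs, rfl, hmem, hreg⟩
    exact ModuleCat.subsingleton_ext_of_exists_isRegular m (ModuleCat.of R (R ⧸ m)) hsupp.subset
      (ModuleCat.of R (R ⧸ J)) hlt rs hmem hreg

end rees

end Pool.Agent.P.MP_b90300_al
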