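import Mathlib
import Pool.Agent.P.MP_b90300_al.ExtDepth
import Pool.Agent.P.MP_b90300_al.Defs

open MvPolynomial

namespace Pool.Agent.P.MP_b90300_al

universe u

section comb

variable {V : Type}

/-- `U` is closed upwards, and membership does not depend on the coordinates in `F`. -/
def Up (F : Set V) (U : Set (V → ℕ)) : Prop :=
  ∀ a b : V → ℕ, (∀ x, x ∉ F → a x ≤ b x) → a ∈ U → b ∈ U

lemma Up.mono {F G : Set V} {U : Set (V → ℕ)} (h : Up F U) (hG : G ⊆ F) : Up G U :=
  fun a b hab ha => h a b (fun x hx => hab x fun hx' => hx (hG hx')) ha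

lemma Up.empty {F : Set V} {U : Set (V → ℕ)} (h : Up F U) : Up ∅ U :=
  h.mono (Set.empty_subset _)

lemma Up.le {F : Set V} {U : Set (V → ℕ)} (h : Up F U) {a b : V → ℕ} (hab : a ≤ b)
    (ha : a ∈ U) : b ∈ U :=
  h a b (fun x _ => hab x) ha

lemma Up.inter {F : Set V} {U W : Set (V → ℕ)} (h : Up F U) (h' : Up F W) : Up F (U ∩ W) :=
  fun a b hab ha => ⟨h a b hab ha.1, h' a b hab ha.2⟩

lemma Up.union {F : Set V} {U W : Set (V → ℕ)} (h : Up F U) (h' : Up F W) : Up F (U ∪ W) :=
  fun a b hab ha => ha.elim (fun h1 => Or.inl (h a b hab h1)) (fun h1 => Or.inr (h' a b hab h1))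

lemma Up.iInter {ι : Type} {F : Set V} {U : ι → Set (V → ℕ)} (h : ∀ i, Up F (U i)) :
    Up F (⋂ i, U i) :=
  fun a b hab ha => Set.mem_iInter.2 fun i => h i a b hab (Set.mem_iInter.1 ha i)

/-- Exponents of the monomials in the `n`-th power. -/
def spow (U : Set (V → ℕ)) : ℕ → Set (V → ℕ)
  | 0 => Set.univ
  | n + 1 => {a | ∃ b ∈ U, ∃ c ∈ spow U n, a = b + c}

lemma Up.spow {F : Set V} {U : Set (V → ℕ)} (h : Up F U) (n : ℕ) : Up F (spow U n) := by
  classical
  induction n with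
  | zero => exact fun _ _ _ _ => Set.mem_univ _
  | succ n ih =>
    rintro a b hab ⟨p, hp, q, hq, rfl⟩
    refine ⟨fun x => if x ∈ F then 0 else p x, h p _ ?_ hp,
      fun x => b x - if x ∈ F then 0 else p x, ih q _ ?_ hq, ?_⟩
    · intro x hx
      simp [hx]
    · intro x hx
      have := hab x hx
      simp only [Pi.add_apply] at this
      simp only [hx, if_false]
      omega
    · funext x
      by_cases hx : x ∈ F
      · simp [hx]
      · have := hab x hx
        simp only [Pi.add_apply] at this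
        simp only [Pi.add_apply, hx, if_false]
        omega

lemma add_mem_spow {U : Set (V → ℕ)} {m n : ℕ} (hU : Up ∅ U) {a b : V → ℕ}
    (ha : a ∈ spow U m) (hb : b ∈ spow U n) : a + b ∈ spow U (m + n) := by
  induction m generalizing a with
  | zero =>
    rw [Nat.zero_add]
    exact (hU.spow n).le (fun x => Nat.le_add_left _ _) hb
  | succ m ih =>
    obtain ⟨p, hp, q, hq, rfl⟩ := ha
    rw [Nat.add_right_comm]
    exact ⟨p, hp, q + b, ih hq, add_assoc _ _ _⟩

lemma nsmul_mem_spow {U : Set (V → ℕ)} {a : V → ℕ} (ha : a ∈ U) (n : ℕ) :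
    n • a ∈ spow U n := by
  induction n with
  | zero => exact Set.mem_univ _
  | succ n ih => exact ⟨a, ha, n • a, ih, succ_nsmul' a n⟩

lemma spow_anti {U : Set (V → ℕ)} (hU : Up ∅ U) {m n : ℕ} (h : m ≤ n) :
    spow U n ⊆ spow U m := by
  induction h with
  | refl => exact subset_rfl
  | step _ ih =>
    rintro a ⟨p, _, q, hq, rfl⟩
    exact (hU.spow _).le (fun x => Nat.le_add_left _ _) (ih hq)

lemma zero_not_mem_spow {U : Set (V → ℕ)} (h0 : (0 : V → ℕ) ∉ U) {n : ℕ} (hn : 1 ≤ n) :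
    (0 : V → ℕ) ∉ spow U n := by
  obtain ⟨n, rfl⟩ : ∃ k, n = k + 1 := ⟨n - 1, by omega⟩
  rintro ⟨p, hp, q, _, h⟩
  apply h0
  have : p = 0 := by
    funext x
    have := congrFun h x
    simp only [Pi.add_apply, Pi.zero_apply] at this ⊢
    omega
  exact this ▸ hp

end comb

section alg

variable {V σ : Type} [Fintype σ] (e : V ≃ σ) (K : Type u) [Field K]

/-- Exponent vector read through the indexing `e`. -/
def ex (a : σ →₀ ℕ) : V → ℕ := fun x => a (e x)

/-- The inverse of `ex`. -/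
noncomputable def mon (b : V → ℕ) : σ →₀ ℕ :=
  Finsupp.equivFunOnFinite.symm fun s => b (e.symm s)

@[simp] lemma ex_mon (b : V → ℕ) : ex e (mon e b) = b := by
  funext x
  simp [ex, mon]

omit [Fintype σ] in
@[simp] lemma ex_add (a b : σ →₀ ℕ) : ex e (a + b) = ex e a + ex e b := rfl

omit [Fintype σ] in
@[simp] lemma ex_zero : ex e 0 = 0 := rfl

omit [Fintype σ] in
lemma ex_injective : Function.Injective (ex e) := by
  intro a b h
  ext s
  have := congrFun h (e.symm s)
  simpa [ex] using this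

omit [Fintype σ] in
lemma ex_le {a b : σ →₀ ℕ} (h : a ≤ b) : ex e a ≤ ex e b := fun x => h (e x)

omit [Fintype σ] in
lemma ex_single [DecidableEq V] (x : V) (c : ℕ) :
    ex e (Finsupp.single (e x) c) = Pi.single x c := by
  classical
  funext y
  by_cases h : y = x
  · subst h
    simp [ex]
  · simp [ex, h]

/-- The monomial ideal attached to a set of exponents. -/
noncomputable def MI (U : Set (V → ℕ)) : Ideal (MvPolynomial σ K) :=
  Ideal.span ((fun a => monomial a (1 : K)) '' {a | ex e a ∈ U})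

variable {e K}

omit [Fintype σ] in
lemma mem_MI {U : Set (V → ℕ)} (hU : Up ∅ U) {f : MvPolynomial σ K} :
    f ∈ MI e K U ↔ ∀ a ∈ f.support, ex e a ∈ U := by
  rw [MI, mem_ideal_span_monomial_image]
  refine forall₂_congr fun a _ => ⟨?_, fun h => ⟨a, h, le_rfl⟩⟩
  rintro ⟨s, hs, hsa⟩
  exact hU.le (ex_le e hsa) hs

omit [Fintype σ] in
lemma monomial_mem_MI {U : Set (V → ℕ)} (hU : Up ∅ U) {a : σ →₀ ℕ} :
    monomial a (1 : K) ∈ MI e K U ↔ ex e a ∈ U := by
  classical
  rw [mem_MI hU, support_monomial, if_neg one_ne_zero]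
  simp

omit [Fintype σ] in
lemma MI_inter {U W : Set (V → ℕ)} (hU : Up ∅ U) (hW : Up ∅ W) :
    MI e K (U ∩ W) = MI e K U ⊓ MI e K W := by
  ext f
  rw [Ideal.mem_inf, mem_MI hU, mem_MI hW, mem_MI (hU.inter hW)]
  exact ⟨fun h => ⟨fun a ha => (h a ha).1, fun a ha => (h a ha).2⟩,
    fun h a ha => ⟨h.1 a ha, h.2 a ha⟩⟩

omit [Fintype σ] in
lemma MI_iInter {ι : Type} {U : ι → Set (V → ℕ)} (hU : ∀ i, Up ∅ (U i)) :
    MI e K (⋂ i, U i) = ⨅ i, MI e K (U i) := by
  ext f
  rw [Ideal.mem_iInf, mem_MI (Up.iInter hU)]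
  simp only [mem_MI (hU _), Set.mem_iInter]
  exact ⟨fun h i a ha => h a ha i, fun h a ha i => h i a ha⟩

omit [Fintype σ] in
lemma MI_union (U W : Set (V → ℕ)) : MI e K (U ∪ W) = MI e K U ⊔ MI e K W := by
  rw [MI, MI, MI, ← Ideal.span_union, ← Set.image_union]
  rfl

lemma MI_spow {U : Set (V → ℕ)} (n : ℕ) : MI e K (spow U n) = MI e K U ^ n := by
  induction n with
  | zero =>
    rw [pow_zero, Ideal.one_eq_top, Ideal.eq_top_iff_one]
    exact Ideal.subset_span ⟨0, Set.mem_univ _, rfl⟩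
  | succ n ih =>
    rw [pow_succ', ← ih, MI, MI, MI, Ideal.span_mul_span']
    congr 1
    ext f
    constructor
    · rintro ⟨a, ⟨p, hp, q, hq, ha⟩, rfl⟩
      refine ⟨monomial (mon e p) 1, ⟨mon e p, by simpa using hp, rfl⟩,
        monomial (mon e q) 1, ⟨mon e q, by simpa using hq, rfl⟩, ?_⟩
      have : a = mon e p + mon e q := ex_injective e (by simpa using ha)
      simp [this, monomial_mul]
    · rintro ⟨_, ⟨a, ha, rfl⟩, _, ⟨b, hb, rfl⟩, rfl⟩
      refine ⟨a + b, ⟨ex e a, ha, ex e b, hb, rfl⟩, ?_⟩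
      simp [monomial_mul]

/-- A nonzero polynomial in the variables of `F` is a non-zero-divisor modulo a monomial ideal
that does not involve those variables. -/
lemma nzd_of_supp {F : Set V} {U : Set (V → ℕ)} (hU : Up F U) {s : MvPolynomial σ K}
    (hs : s ≠ 0) (hsF : ∀ a ∈ s.support, ∀ x, x ∉ F → ex e a x = 0)
    (f : MvPolynomial σ K) (hf : s * f ∈ MI e K U) : f ∈ MI e K U := by
  classical
  let _ : LinearOrder σ := LinearOrder.lift' (Fintype.equivFin σ) (Fintype.equivFin σ).injective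
  let m : MonomialOrder σ := MonomialOrder.lex
  let g : MvPolynomial σ K :=
    ∑ a ∈ f.support.filter (fun a => ex e a ∈ U), monomial a (coeff a f)
  have hg : g ∈ MI e K U := by
    refine Ideal.sum_mem _ fun a ha => ?_
    have h1 : monomial a (coeff a f) = C (coeff a f) * monomial a (1 : K) := by
      simp [C_mul_monomial]
    rw [h1]
    exact Ideal.mul_mem_left _ _ ((monomial_mem_MI hU.empty).2 (Finset.mem_filter.1 ha).2)
  have hsupp : ∀ a ∈ (f - g).support, ex e a ∉ U := by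
    intro a ha hmem
    rw [mem_support_iff] at ha
    apply ha
    rw [coeff_sub, coeff_sum]
    simp only [coeff_monomial]
    rw [Finset.sum_ite_eq']
    by_cases h : a ∈ f.support
    · simp [h, hmem]
    · have : coeff a f = 0 := by simpa using h
      simp [this]
  by_cases h0 : f - g = 0
  · rw [sub_eq_zero.1 h0]
    exact hg
  · exfalso
    have h1 : s * (f - g) ∈ MI e K U := by
      rw [mul_sub]
      exact Ideal.sub_mem _ hf (Ideal.mul_mem_left _ _ hg)
    have h2 := (mem_MI hU.empty).1 h1 _ (m.degree_mem_support (mul_ne_zero hs h0))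
    rw [m.degree_mul hs h0, ex_add] at h2
    refine hsupp _ (m.degree_mem_support h0) (hU _ _ ?_ h2)
    intro x hx
    simp [hsF _ (m.degree_mem_support hs) x hx]

/-- Exponents of the monomials in the prime ideal generated by the variables outside `F`. -/
def PF (F : Set V) : Set (V → ℕ) := {a | ∃ x, x ∉ F ∧ a x ≠ 0}

lemma up_PF (F : Set V) : Up F (PF F) := by
  rintro a b hab ⟨x, hx, ha⟩
  have := hab x hx
  exact ⟨x, hx, by omega⟩

omit [Fintype σ] in
lemma X_pow_mem_MI [DecidableEq V] {U : Set (V → ℕ)} (hU : Up ∅ U) {x : V} {c : ℕ} :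
    (X (e x) : MvPolynomial σ K) ^ c ∈ MI e K U ↔ Pi.single x c ∈ U := by
  rw [X_pow_eq_monomial, monomial_mem_MI hU, ex_single]

omit [Fintype σ] in
lemma MI_PF_le {F : Set V} {J : Ideal (MvPolynomial σ K)}
    (h : ∀ x, x ∉ F → X (e x) ∈ J) : MI e K (PF F) ≤ J := by
  classical
  rw [MI, Ideal.span_le]
  rintro _ ⟨a, ⟨x, hx, ha⟩, rfl⟩
  have : (X (e x) : MvPolynomial σ K) ∣ monomial a 1 := by
    rw [X_dvd_monomial]
    exact Or.inr ha
  obtain ⟨q, hq⟩ := this
  change monomial a (1 : K) ∈ J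
  rw [hq]
  exact Ideal.mul_mem_right _ _ (h x hx)

/-- A polynomial outside the prime of `F` is a non-zero-divisor modulo a monomial ideal that is
primary to that prime. -/
lemma nzd_of_not_mem [DecidableEq V] {F : Set V} {U : Set (V → ℕ)} (hU : Up F U)
    (hpow : ∀ x, x ∉ F → ∃ c, Pi.single x c ∈ U) {s : MvPolynomial σ K}
    (hs : s ∉ MI e K (PF F)) (f : MvPolynomial σ K) (hf : s * f ∈ MI e K U) :
    f ∈ MI e K U := by
  classical
  let g : MvPolynomial σ K :=
    ∑ a ∈ s.support.filter (fun a => ex e a ∈ PF F), monomial a (coeff a s)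
  have hg : g ∈ MI e K (PF F) := by
    refine Ideal.sum_mem _ fun a ha => ?_
    have h1 : monomial a (coeff a s) = C (coeff a s) * monomial a (1 : K) := by
      simp [C_mul_monomial]
    rw [h1]
    exact Ideal.mul_mem_left _ _
      ((monomial_mem_MI (up_PF F).empty).2 (Finset.mem_filter.1 ha).2)
  have hsupp : ∀ a ∈ (s - g).support, ex e a ∉ PF F := by
    intro a ha hmem
    rw [mem_support_iff] at ha
    apply ha
    rw [coeff_sub, coeff_sum]
    simp only [coeff_monomial]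
    rw [Finset.sum_ite_eq']
    by_cases h : a ∈ s.support
    · simp [h, hmem]
    · have : coeff a s = 0 := by simpa using h
      simp [this]
  have h0 : s - g ≠ 0 := by
    intro h
    rw [sub_eq_zero.1 h] at hs
    exact hs hg
  have hrad : MI e K (PF F) ≤ (MI e K U).radical := by
    refine MI_PF_le fun x hx => ?_
    obtain ⟨c, hc⟩ := hpow x hx
    exact ⟨c, (X_pow_mem_MI hU.empty).2 hc⟩
  obtain ⟨n, hn⟩ := hrad ((MI e K (PF F)).neg_mem hg)
  have hdvd : s ∣ (s - g) ^ n - (-g) ^ n := by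
    have := sub_dvd_pow_sub_pow (s - g) (-g) n
    simpa using this
  obtain ⟨q, hq⟩ := hdvd
  have key : (s - g) ^ n * f ∈ MI e K U := by
    have : (s - g) ^ n * f = q * (s * f) + f * (-g) ^ n := by
      linear_combination f * hq
    rw [this]
    exact Ideal.add_mem _ (Ideal.mul_mem_left _ _ hf) (Ideal.mul_mem_left _ _ hn)
  clear hq hn
  induction n with
  | zero => simpa using key
  | succ n ih =>
    apply ih
    rw [pow_succ', mul_assoc] at key
    refine nzd_of_supp hU h0 (fun a ha x hx => ?_) _ key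
    by_contra hne
    exact hsupp a ha ⟨x, hx, hne⟩

lemma isPrime_PF [DecidableEq V] (F : Set V) : (MI e K (PF F)).IsPrime := by
  refine ⟨?_, fun {s f} h => ?_⟩
  · rw [Ne, Ideal.eq_top_iff_one]
    intro h
    have h1 : monomial (0 : σ →₀ ℕ) (1 : K) ∈ MI e K (PF F) := h
    rw [monomial_mem_MI (up_PF F).empty] at h1
    obtain ⟨x, _, hx⟩ := h1
    exact hx rfl
  · by_cases hs : s ∈ MI e K (PF F)
    · exact Or.inl hs
    · exact Or.inr (nzd_of_not_mem (up_PF F) (fun x hx => ⟨1, x, hx, by simp⟩) hs f h)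

omit [Fintype σ] in
lemma X_mem_PF [DecidableEq V] {F : Set V} {x : V} :
    (X (e x) : MvPolynomial σ K) ∈ MI e K (PF F) ↔ x ∉ F := by
  rw [← pow_one (X (e x)), X_pow_mem_MI (up_PF F).empty]
  constructor
  · rintro ⟨y, hy, h⟩
    by_cases hxy : y = x
    · exact hxy ▸ hy
    · simp [hxy] at h
  · intro hx
    exact ⟨x, hx, by simp⟩

omit [Fintype σ] in
lemma MI_mono {U W : Set (V → ℕ)} (h : U ⊆ W) : MI e K U ≤ MI e K W :=
  Ideal.span_mono (Set.image_mono fun _ ha => h ha)

lemma subset_PF {F : Set V} {U : Set (V → ℕ)} (hU : Up F U) (h0 : (0 : V → ℕ) ∉ U) :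
    U ⊆ PF F := by
  intro a ha
  by_contra h
  apply h0
  refine hU a 0 (fun x hx => ?_) ha
  by_contra hne
  exact h ⟨x, hx, by simpa using hne⟩

lemma mem_symbolicPower {R : Type u} [CommRing R] (I : Ideal R) (n : ℕ) (f : R) :
    f ∈ symbolicPower I n ↔ ∀ p ∈ I.minimalPrimes, ∃ s, s ∉ p ∧ s * f ∈ I ^ n := by
  simp only [symbolicPower, Ideal.mem_iInf, Ideal.mem_comap]
  constructor
  · intro h p hp
    have hpp : p.IsPrime := hp.1.1
    have := h ⟨p, hpp⟩ hp
    rw [IsLocalization.algebraMap_mem_map_algebraMap_iff p.primeCompl] at this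
    obtain ⟨s, hs, hsf⟩ := this
    exact ⟨s, hs, hsf⟩
  · intro h p hp
    rw [IsLocalization.algebraMap_mem_map_algebraMap_iff p.asIdeal.primeCompl]
    obtain ⟨s, hs, hsf⟩ := h p.asIdeal hp
    exact ⟨s, hs, hsf⟩

theorem symbolicPower_MI [DecidableEq V] {ι : Type} [Fintype ι] (F : ι → Set V)
    (U : ι → Set (V → ℕ)) (hU : ∀ i, Up (F i) (U i))
    (hpow : ∀ i x, x ∉ F i → ∃ c, Pi.single x c ∈ U i) (h0 : ∀ i, (0 : V → ℕ) ∉ U i)
    (hinc : ∀ i j, i ≠ j → ∃ x, x ∈ F i ∧ x ∉ F j) (n : ℕ) :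
    symbolicPower (MI e K (⋂ i, U i)) n = MI e K (⋂ i, spow (U i) n) := by
  classical
  have hI : MI e K (⋂ i, U i) = ⨅ i, MI e K (U i) := MI_iInter fun i => (hU i).empty
  have hle : ∀ i, MI e K (⋂ i, U i) ≤ MI e K (PF (F i)) := fun i =>
    MI_mono ((Set.iInter_subset _ i).trans (subset_PF (hU i) (h0 i)))
  have hcont : ∀ q : Ideal (MvPolynomial σ K), q.IsPrime → MI e K (⋂ i, U i) ≤ q →
      ∃ i, MI e K (PF (F i)) ≤ q := by
    intro q hq hIq
    rw [hI, ← Finset.inf_univ_eq_iInf, hq.inf_le'] at hIq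
    obtain ⟨i, -, hi⟩ := hIq
    refine ⟨i, MI_PF_le fun x hx => ?_⟩
    obtain ⟨c, hc⟩ := hpow i x hx
    exact hq.mem_of_pow_mem c (hi ((X_pow_mem_MI (hU i).empty).2 hc))
  have hmin : ∀ i, MI e K (PF (F i)) ∈ (MI e K (⋂ i, U i)).minimalPrimes := by
    intro i
    refine ⟨⟨isPrime_PF _, hle i⟩, fun q hq hqle => ?_⟩
    obtain ⟨j, hj⟩ := hcont q hq.1 hq.2
    by_cases hij : i = j
    · exact hij ▸ hj
    · obtain ⟨x, hxi, hxj⟩ := hinc i j hij
      exact absurd hxi (X_mem_PF.1 (hqle (hj (X_mem_PF.2 hxj))))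
  ext f
  rw [mem_symbolicPower, MI_iInter fun i => ((hU i).spow n).empty, Ideal.mem_iInf]
  constructor
  · intro h i
    obtain ⟨s, hs, hsf⟩ := h _ (hmin i)
    refine nzd_of_not_mem ((hU i).spow n) (fun x hx => ?_) hs f ?_
    · obtain ⟨c, hc⟩ := hpow i x hx
      refine ⟨n * c, ?_⟩
      have := nsmul_mem_spow hc n
      rwa [← Pi.single_smul, smul_eq_mul] at this
    · rw [MI_spow]
      exact Ideal.pow_right_mono (MI_mono (Set.iInter_subset _ i)) n hsf
  · intro h p hp
    obtain ⟨i, hi⟩ := hcont p hp.1.1 hp.1.2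
    have hpi : p = MI e K (PF (F i)) := le_antisymm (hp.2 ⟨isPrime_PF _, hle i⟩ hi) hi
    have hex : ∀ j, ∃ s : MvPolynomial σ K, s ∉ p ∧ (j ≠ i → s ∈ MI e K (U j)) := by
      intro j
      by_cases hj : j = i
      · exact ⟨1, fun h1 => hp.1.1.ne_top ((Ideal.eq_top_iff_one _).2 h1), fun h => absurd hj h⟩
      · obtain ⟨x, hxi, hxj⟩ := hinc i j (Ne.symm hj)
        obtain ⟨c, hc⟩ := hpow j x hxj
        refine ⟨X (e x) ^ c, fun h1 => ?_, fun _ => (X_pow_mem_MI (hU j).empty).2 hc⟩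
        have := hp.1.1.mem_of_pow_mem c h1
        rw [hpi] at this
        exact X_mem_PF.1 this hxi
    choose s hs hsU using hex
    have hpp : p.IsPrime := hp.1.1
    have hprod : ∏ j, s j ∉ p := by
      intro h1
      obtain ⟨j, -, hj⟩ := (Ideal.IsPrime.prod_mem_iff (hp := hpp)).1 h1
      exact hs j hj
    refine ⟨(∏ j, s j) ^ n, fun h1 => hprod (hpp.mem_of_pow_mem n h1), ?_⟩
    have hmul : Ideal.span {∏ j, s j} * MI e K (U i) ≤ MI e K (⋂ i, U i) := by
      rw [hI]
      refine le_iInf fun j => ?_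
      by_cases hj : j = i
      · subst hj
        exact Ideal.mul_le_right
      · refine Ideal.mul_le_left.trans ?_
        rw [Ideal.span_singleton_le_iff_mem]
        exact Ideal.prod_mem _ (Finset.mem_univ j) (hsU j hj)
    have h2 := Ideal.pow_right_mono hmul n
    apply h2
    rw [mul_pow, Ideal.span_singleton_pow]
    refine Ideal.mul_mem_mul (Ideal.mem_span_singleton_self _) ?_
    rw [← MI_spow]
    exact h i

end alg

end Pool.Agent.P.MP_b90300_al
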