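import Mathlib
import Pool.Agent.P.MP_b90300_al.Monomial

open MvPolynomial

namespace Pool.Agent.P.MP_b90300_al

universe u

variable {V : Type} {r : ℕ} (e : V ≃ Fin r) (K : Type u) [Field K]

/-- The ideal generated by the variables. -/
noncomputable abbrev mx : Ideal (MvPolynomial (Fin r) K) :=
  Ideal.span (Set.range (X : Fin r → MvPolynomial (Fin r) K))

/-- Vanishing of `Ext^i(R/m, R/J)` for `i < n`, for the monomial ideal `J` attached to `U`. -/
def Dep (U : Set (V → ℕ)) (n : ℕ) : Prop :=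
  DE (ModuleCat.of (MvPolynomial (Fin r) K) (MvPolynomial (Fin r) K ⧸ mx (r := r) K))
    (MvPolynomial (Fin r) K ⧸ MI e K U) n

variable {e K}

lemma mx_eq [DecidableEq V] : mx (r := r) K = MI e K (PF ∅) := by
  apply le_antisymm
  · rw [Ideal.span_le]
    rintro _ ⟨s, rfl⟩
    have : (X (e (e.symm s)) : MvPolynomial (Fin r) K) ∈ MI e K (PF ∅) :=
      X_mem_PF.2 (Set.notMem_empty _)
    simpa using this
  · exact MI_PF_le fun x _ => Ideal.subset_span ⟨e x, rfl⟩

lemma MI_var [DecidableEq V] (y : V) :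
    MI e K {a | a y ≠ 0} = Ideal.span {(X (e y) : MvPolynomial (Fin r) K)} := by
  have h : {a : V → ℕ | a y ≠ 0} = PF {y}ᶜ := by
    ext a
    simp [PF]
  rw [h]
  apply le_antisymm
  · refine MI_PF_le fun x hx => ?_
    have : x = y := by simpa using hx
    rw [this]
    exact Ideal.mem_span_singleton_self _
  · rw [Ideal.span_singleton_le_iff_mem]
    exact X_mem_PF.2 (by simp)

lemma nzd_var [DecidableEq V] {F : Set V} {U : Set (V → ℕ)} (hU : Up F U) {y : V} (hy : y ∈ F)
    (f : MvPolynomial (Fin r) K) (hf : X (e y) * f ∈ MI e K U) : f ∈ MI e K U := by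
  refine nzd_of_supp hU (X_ne_zero _) (fun a ha x hx => ?_) f hf
  rw [support_X, Finset.mem_singleton] at ha
  rw [ha, ex_single]
  have : x ≠ y := fun h => hx (h ▸ hy)
  simp [this]

lemma up_var {Y : Set V} {y : V} (hy : y ∉ Y) : Up Y {a : V → ℕ | a y ≠ 0} := by
  intro a b hab ha
  have h1 := hab y hy
  have h2 : a y ≠ 0 := ha
  change b y ≠ 0
  omega

lemma dep_of_up [DecidableEq V] (Y : Finset V) {U : Set (V → ℕ)} (hU : Up (Y : Set V) U) :
    Dep e K U Y.card := by
  induction Y using Finset.induction_on generalizing U with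
  | empty => exact fun i hi => absurd hi (by simp)
  | insert y Y hy ih =>
    have h1 : Up (Y : Set V) (U ∪ {a | a y ≠ 0}) :=
      (hU.mono (by simp [Set.subset_insert])).union (up_var (by simpa using hy))
    have h2 := ih h1
    rw [Dep, MI_union, MI_var] at h2
    rw [Finset.card_insert_of_notMem hy]
    refine DE_succ_of_nzd _ ?_ (nzd_var hU (by simp)) h2
    rw [Ideal.annihilator_quotient]
    exact Ideal.subset_span ⟨e y, rfl⟩

lemma not_dep_of_socle [DecidableEq V] (Y : Finset V) {U : Set (V → ℕ)}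
    (hU : Up (Y : Set V) U) {a : V → ℕ} (ha : a ∉ U)
    (hs : ∀ x, x ∉ Y → ∃ c, a + Pi.single x c ∈ U) : ¬ Dep e K U (Y.card + 1) := by
  induction Y using Finset.induction_on generalizing U a with
  | empty =>
    intro h
    obtain ⟨s, hs1, hs2⟩ := exists_regular_of_DE_one _ h
    rw [Ideal.annihilator_quotient, mx_eq (e := e)] at hs1
    let f : MvPolynomial (Fin r) K := monomial (mon e a) 1
    have hrad : MI e K (PF ∅) ≤ Ideal.radical (Submodule.comap
        (LinearMap.toSpanSingleton (MvPolynomial (Fin r) K) (MvPolynomial (Fin r) K) f)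
        (MI e K U)) := by
      refine MI_PF_le fun x _ => ?_
      obtain ⟨c, hc⟩ := hs x (by simp)
      refine ⟨c, ?_⟩
      change X (e x) ^ c * f ∈ MI e K U
      rw [X_pow_eq_monomial, monomial_mul, mul_one, monomial_mem_MI hU.empty, ex_add, ex_single,
        ex_mon, add_comm]
      exact hc
    obtain ⟨n, hn⟩ := hrad hs1
    have hn' : s ^ n * f ∈ MI e K U := hn
    have h3 : (s ^ n) • (Submodule.Quotient.mk f : MvPolynomial (Fin r) K ⧸ MI e K U) =
        (s ^ n) • 0 := by
      rw [smul_zero, ← Submodule.Quotient.mk_smul, Submodule.Quotient.mk_eq_zero]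
      exact hn'
    have h4 := (hs2.pow n) h3
    rw [Submodule.Quotient.mk_eq_zero, monomial_mem_MI hU.empty, ex_mon] at h4
    exact ha h4
  | insert y Y hy ih =>
    intro h
    have h1 : Up (Y : Set V) (U ∪ {a | a y ≠ 0}) :=
      (hU.mono (by simp [Set.subset_insert])).union (up_var (by simpa using hy))
    rw [Finset.card_insert_of_notMem hy] at h
    have h2 := DE_pred_of_nzd _ (nzd_var (e := e) (K := K) hU (y := y) (by simp)) h
    rw [← MI_var, ← MI_union] at h2
    refine ih h1 (a := Function.update a y 0) ?_ ?_ h2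
    · rintro (h3 | h3)
      · refine ha (hU.le (fun x => ?_) h3)
        by_cases hx : x = y
        · subst hx
          simp
        · simp [Function.update_of_ne hx]
      · simp at h3
    · intro x hx
      by_cases hxy : x = y
      · subst hxy
        exact ⟨1, Or.inr (by simp)⟩
      · obtain ⟨c, hc⟩ := hs x (by simp [hx, hxy])
        refine ⟨c, Or.inl (hU _ _ (fun w hw => ?_) hc)⟩
        have hwy : w ≠ y := fun h => hw (by simp [h])
        simp [Function.update_of_ne hwy]

lemma depth_eq_of_dep [DecidableEq V] {U : Set (V → ℕ)} (hU : Up ∅ U) (h0 : (0 : V → ℕ) ∉ U)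
    {n : ℕ} (h1 : Dep e K U n) (h2 : ¬ Dep e K U (n + 1)) : depth (MI e K U) = n := by
  have hne : MI e K U ⊔ mx (r := r) K ≠ ⊤ := by
    have hle : MI e K U ≤ mx (r := r) K := by
      rw [mx_eq (e := e)]
      exact MI_mono (subset_PF hU h0)
    rw [sup_eq_right.2 hle, mx_eq (e := e)]
    exact (isPrime_PF _).ne_top
  apply le_antisymm
  · refine iSup_le fun rs => iSup_le fun hm => iSup_le fun hreg => ?_
    by_contra hlt
    have hlt' : n + 1 ≤ rs.length := by
      rw [not_le] at hlt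
      exact_mod_cast Order.add_one_le_of_lt hlt
    exact h2 (((DE_iff_regular _ _ hne rs.length).2 ⟨rs, rfl, hm, hreg⟩).mono hlt')
  · obtain ⟨rs, hlen, hm, hreg⟩ := (DE_iff_regular _ _ hne n).1 h1
    rw [← hlen]
    exact le_iSup₂_of_le rs hm (le_iSup_of_le hreg le_rfl)

theorem depth_three [DecidableEq V] {A B C : Set (V → ℕ)} (hA : Up ∅ A) (hB : Up ∅ B)
    (hC : Up ∅ C) (W H Y : Finset V) (hW : Y.card + 1 ≤ W.card) (hH : Y.card + 1 ≤ H.card)
    (hAB : Up (W : Set V) (A ∩ B)) (hAC : Up (H : Set V) (A ∩ C))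
    (hZ : Up (Y : Set V) (A ∩ (B ∪ C))) {a : V → ℕ} (ha : a ∉ A ∩ (B ∪ C))
    (hs : ∀ x, x ∉ Y → ∃ c, a + Pi.single x c ∈ A ∩ (B ∪ C)) :
    depth (MI e K (A ∩ B ∩ C)) = (Y.card + 1 : ℕ) := by
  have e1 : A ∩ B ∩ C = (A ∩ B) ∩ (A ∩ C) := by
    ext x
    simp only [Set.mem_inter_iff]
    tauto
  have e2 : A ∩ (B ∪ C) = (A ∩ B) ∪ (A ∩ C) := Set.inter_union_distrib_left _ _ _
  have d1 : Dep e K (A ∩ B) (Y.card + 1) := (dep_of_up W hAB).mono hW
  have d2 : Dep e K (A ∩ C) (Y.card + 1) := (dep_of_up H hAC).mono hH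
  have d3 : Dep e K (A ∩ (B ∪ C)) Y.card := dep_of_up Y hZ
  have d4 : ¬ Dep e K (A ∩ (B ∪ C)) (Y.card + 1) := not_dep_of_socle Y hZ ha hs
  refine depth_eq_of_dep ((hA.inter hB).inter hC) ?_ ?_ ?_
  · intro h0
    exact ha ((hA.inter (hB.union hC)).le (fun x => Nat.zero_le _) ⟨h0.1.1, Or.inr h0.2⟩)
  · rw [Dep, e1, MI_inter (hA.inter hB) (hA.inter hC)]
    rw [Dep, e2, MI_union] at d3
    exact DE_inf _ d1 d2 d3
  · intro h
    apply d4
    rw [Dep, e1, MI_inter (hA.inter hB) (hA.inter hC)] at h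
    rw [Dep, e2, MI_union]
    exact DE_sup _ d1 d2 h

end Pool.Agent.P.MP_b90300_al
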