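import Mathlib
import Pool.Agent.P.MP_b90300_al.DepthMI

namespace Pool.Agent.P.MP_b90300_al

/-- The variables of the construction. -/
inductive Var (M : ℕ) : Type
  | x1 | x2 | x3 | v | z
  | w (i : Fin M) | h (i : Fin M) | e (i : Fin M)
  deriving DecidableEq, Fintype

open Var

variable {M : ℕ}

/-- An exponent vector supported on the five inner variables. -/
def vec (M : ℕ) (p q r s t : ℕ) : Var M → ℕ
  | x1 => p
  | x2 => q
  | x3 => r
  | v => s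
  | z => t
  | w _ => 0
  | h _ => 0
  | e _ => 0

lemma vec_add (p q r s t p' q' r' s' t' : ℕ) :
    vec M (p + p') (q + q') (r + r') (s + s') (t + t') =
      vec M p q r s t + vec M p' q' r' s' t' := by
  funext x
  cases x <;> rfl

lemma vec_smul (n p q r s t : ℕ) :
    n • vec M p q r s t = vec M (n * p) (n * q) (n * r) (n * s) (n * t) := by
  funext x
  cases x <;> simp [vec]

lemma vec_le {p q r s t : ℕ} {a : Var M → ℕ} (h1 : p ≤ a x1) (h2 : q ≤ a x2) (h3 : r ≤ a x3)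
    (h4 : s ≤ a v) (h5 : t ≤ a z) : vec M p q r s t ≤ a := by
  intro x
  cases x <;> simp [vec, *]

/-- The central primary component. -/
def UM (M N : ℕ) : Set (Var M → ℕ) :=
  {a | (1 ≤ a x1 ∧ 20 * N ≤ a x3 + 1 ∧ 1 ≤ a z) ∨ (1 ≤ a x2 ∧ 20 * N ≤ a x3 + 1 ∧ 1 ≤ a z) ∨
    (20 * N ≤ a x3 + 1 ∧ 1 ≤ a v) ∨ 5 ≤ a z ∨ 40 * N ≤ a x1 + a x2 + a x3 ∨ 4 ≤ a v}

/-- The prime component. -/
def UQ (M : ℕ) : Set (Var M → ℕ) := {a | 1 ≤ a z ∨ ∃ i, 1 ≤ a (w i) ∨ 1 ≤ a (e i)}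

/-- The critical pairs for the value `j + 1`. -/
def Crit (φ : ℕ → ℕ) (N j s s' : ℕ) : Prop :=
  φ (s + s' + 1) = j + 1 ∧ (s + 1 = N ∨ (s' = 0 ∧ s < N))

/-- Membership in a power of the ideal generated by the `N`-th powers of three variables. -/
def Lat (N n p q r : ℕ) : Prop :=
  ∃ c1 c2 c3, 20 * n ≤ c1 + c2 + c3 ∧ N * c1 ≤ p ∧ N * c2 ≤ q ∧ N * c3 ≤ r

/-- The primary component that detects the value `j + 1`. -/
def UP (φ : ℕ → ℕ) (N : ℕ) (j : Fin M) : Set (Var M → ℕ) :=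
  {a | Lat N 1 (a x1) (a x2) (a x3) ∨
    (1 ≤ a v ∧ ∃ b1 b2 b3, b1 + b2 + b3 + 1 = 20 * N ∧ ¬ Crit φ N j b1 b2 ∧
      b1 ≤ a x1 ∧ b2 ≤ a x2 ∧ b3 ≤ a x3) ∨
    2 ≤ a v ∨ (∃ i, j ≤ i ∧ 1 ≤ a (h i)) ∨ (∃ i, i ≠ j ∧ 1 ≤ a (e i))}

/-- The central facet. -/
def F0 (M : ℕ) : Set (Var M) :=
  {x | match x with
    | w _ => True
    | h _ => True
    | e _ => True
    | _ => False}

/-- The facet of the prime component. -/
def FQ (M : ℕ) : Set (Var M) :=
  {x | match x with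
    | z => False
    | w _ => False
    | e _ => False
    | _ => True}

/-- The facet of the component that detects the value `j + 1`. -/
def FP (j : Fin M) : Set (Var M) :=
  {x | match x with
    | z => True
    | w _ => True
    | h i => i < j
    | e i => i = j
    | _ => False}

lemma up_UM (N : ℕ) : Up (F0 M) (UM M N) := by
  intro a b hab ha
  have h1 := hab x1 (by simp [F0])
  have h2 := hab x2 (by simp [F0])
  have h3 := hab x3 (by simp [F0])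
  have h4 := hab v (by simp [F0])
  have h5 := hab z (by simp [F0])
  simp only [UM, Set.mem_ofPred_eq] at ha ⊢
  omega

lemma up_UQ : Up (FQ M) (UQ M) := by
  intro a b hab ha
  rcases ha with ha | ⟨i, ha | ha⟩
  · exact Or.inl (ha.trans (hab z (by simp [FQ])))
  · exact Or.inr ⟨i, Or.inl (ha.trans (hab (w i) (by simp [FQ])))⟩
  · exact Or.inr ⟨i, Or.inr (ha.trans (hab (e i) (by simp [FQ])))⟩

lemma Lat.mono {N n p q r p' q' r' : ℕ} (h : Lat N n p q r) (hp : p ≤ p') (hq : q ≤ q')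
    (hr : r ≤ r') : Lat N n p' q' r' := by
  obtain ⟨c1, c2, c3, h0, h1, h2, h3⟩ := h
  exact ⟨c1, c2, c3, h0, h1.trans hp, h2.trans hq, h3.trans hr⟩

lemma up_UP (φ : ℕ → ℕ) (N : ℕ) (j : Fin M) : Up (FP j) (UP φ N j) := by
  intro a b hab ha
  have h1 := hab x1 (by simp [FP])
  have h2 := hab x2 (by simp [FP])
  have h3 := hab x3 (by simp [FP])
  have h4 := hab v (by simp [FP])
  rcases ha with ha | ⟨hv, b1, b2, b3, hb, hc, k1, k2, k3⟩ | ha | ⟨i, hi, ha⟩ | ⟨i, hi, ha⟩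
  · exact Or.inl (ha.mono h1 h2 h3)
  · exact Or.inr (Or.inl ⟨hv.trans h4, b1, b2, b3, hb, hc, k1.trans h1, k2.trans h2, k3.trans h3⟩)
  · exact Or.inr (Or.inr (Or.inl (ha.trans h4)))
  · exact Or.inr (Or.inr (Or.inr (Or.inl
      ⟨i, hi, ha.trans (hab (h i) (by simpa [FP] using hi))⟩)))
  · exact Or.inr (Or.inr (Or.inr (Or.inr
      ⟨i, hi, ha.trans (hab (e i) (by simpa [FP] using hi))⟩)))

lemma UM_struct {N n : ℕ} {a : Var M → ℕ} (ha : a ∈ spow (UM M N) n) :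
    ∃ α β s u l l', α + β + s + u + l + l' = n ∧ α ≤ a x1 ∧ β ≤ a x2 ∧
      20 * (N * (α + β + s)) ≤ a x3 + (α + β + s) ∧ s + 4 * l' ≤ a v ∧ α + β + 5 * u ≤ a z ∧
      20 * (N * (α + β + s)) + 40 * (N * l) ≤ a x1 + a x2 + a x3 + s := by
  induction n generalizing a with
  | zero => exact ⟨0, 0, 0, 0, 0, 0, by simp⟩
  | succ n ih =>
    obtain ⟨b, hb, c, hc, rfl⟩ := ha
    obtain ⟨α, β, s, u, l, l', h0, h1, h2, h3, h4, h5, h6⟩ := ih hc
    simp only [Pi.add_apply]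
    have e1 : N * (α + 1 + β + s) = N * (α + β + s) + N := by ring
    have e2 : N * (α + (β + 1) + s) = N * (α + β + s) + N := by ring
    have e3 : N * (α + β + (s + 1)) = N * (α + β + s) + N := by ring
    have e4 : N * (l + 1) = N * l + N := by ring
    rcases hb with hb | hb | hb | hb | hb | hb
    · exact ⟨α + 1, β, s, u, l, l', by omega⟩
    · exact ⟨α, β + 1, s, u, l, l', by omega⟩
    · exact ⟨α, β, s + 1, u, l, l', by omega⟩
    · exact ⟨α, β, s, u + 1, l, l', by omega⟩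
    · exact ⟨α, β, s, u, l + 1, l', by omega⟩
    · exact ⟨α, β, s, u, l, l' + 1, by omega⟩

lemma lat_vec_mem (φ : ℕ → ℕ) (N : ℕ) (j : Fin M) (n c1 c2 c3 : ℕ)
    (hc : 20 * n ≤ c1 + c2 + c3) :
    vec M (N * c1) (N * c2) (N * c3) 0 0 ∈ spow (UP φ N j) n := by
  induction n generalizing c1 c2 c3 with
  | zero => exact Set.mem_univ _
  | succ n ih =>
    obtain ⟨d1, d2, d3, f1, f2, f3, rfl, rfl, rfl, hd, hf⟩ :
        ∃ d1 d2 d3 f1 f2 f3, c1 = d1 + f1 ∧ c2 = d2 + f2 ∧ c3 = d3 + f3 ∧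
          20 ≤ d1 + d2 + d3 ∧ 20 * n ≤ f1 + f2 + f3 :=
      ⟨min c1 20, min c2 (20 - min c1 20), 20 - min c1 20 - min c2 (20 - min c1 20),
        c1 - min c1 20, c2 - min c2 (20 - min c1 20),
        c3 - (20 - min c1 20 - min c2 (20 - min c1 20)), by omega⟩
    refine ⟨vec M (N * d1) (N * d2) (N * d3) 0 0,
      Or.inl ⟨d1, d2, d3, by omega, le_rfl, le_rfl, le_rfl⟩, _, ih f1 f2 f3 hf, ?_⟩
    rw [← vec_add, mul_add, mul_add, mul_add]

lemma v_vec_mem (φ : ℕ → ℕ) (N : ℕ) (j : Fin M) (n : ℕ) :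
    vec M 0 0 0 (n * 2) 0 ∈ spow (UP φ N j) n := by
  have h : vec M 0 0 0 2 0 ∈ UP φ N j := Or.inr (Or.inr (Or.inl le_rfl))
  have := nsmul_mem_spow h n
  rwa [vec_smul] at this

lemma z_vec_mem (n : ℕ) : vec M 0 0 0 0 n ∈ spow (UQ M) n := by
  have h : vec M 0 0 0 0 1 ∈ UQ M := Or.inl le_rfl
  have := nsmul_mem_spow h n
  rw [vec_smul] at this
  simpa using this

lemma UQ_struct {n : ℕ} {a : Var M → ℕ} (ha : a ∈ spow (UQ M) n) (hw : ∀ i, a (w i) = 0)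
    (he : ∀ i, a (e i) = 0) : n ≤ a z := by
  induction n generalizing a with
  | zero => exact Nat.zero_le _
  | succ n ih =>
    obtain ⟨b, hb, c, hc, rfl⟩ := ha
    simp only [Pi.add_apply] at hw he ⊢
    have h1 := ih hc (fun i => by have := hw i; omega) (fun i => by have := he i; omega)
    rcases hb with hb | ⟨i, hb⟩
    · omega
    · have := hw i
      have := he i
      omega

lemma UP_struct {φ : ℕ → ℕ} {N : ℕ} {j : Fin M} {n : ℕ} {a : Var M → ℕ}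
    (ha : a ∈ spow (UP φ N j) n) (hh : ∀ i, a (h i) = 0) (he : ∀ i, a (e i) = 0)
    (hv : a v ≤ 1) :
    Lat N n (a x1) (a x2) (a x3) ∨ ∃ b1 b2 b3 n' c1 c2 c3, n = n' + 1 ∧ a v = 1 ∧
      b1 + b2 + b3 + 1 = 20 * N ∧ ¬ Crit φ N j b1 b2 ∧ 20 * n' ≤ c1 + c2 + c3 ∧
      b1 + N * c1 ≤ a x1 ∧ b2 + N * c2 ≤ a x2 ∧ b3 + N * c3 ≤ a x3 := by
  induction n generalizing a with
  | zero => exact Or.inl ⟨0, 0, 0, by simp⟩
  | succ n ih =>
    obtain ⟨b, hb, c, hc, rfl⟩ := ha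
    simp only [Pi.add_apply] at hh he hv ⊢
    have h1 := ih hc (fun i => by have := hh i; omega) (fun i => by have := he i; omega)
      (by omega)
    rcases hb with ⟨d1, d2, d3, hd⟩ | ⟨hbv, b1, b2, b3, hb, hcr, k⟩ | hb | ⟨i, _, hb⟩ | ⟨i, _, hb⟩
    · rcases h1 with ⟨c1, c2, c3, hc⟩ | ⟨b1, b2, b3, n', c1, c2, c3, rfl, hcv, hb, hcr, k⟩
      · refine Or.inl ⟨d1 + c1, d2 + c2, d3 + c3, ?_⟩
        simp only [mul_add]
        omega
      · refine Or.inr ⟨b1, b2, b3, n' + 1, d1 + c1, d2 + c2, d3 + c3, rfl, by omega, hb, hcr, ?_⟩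
        simp only [mul_add]
        omega
    · rcases h1 with ⟨c1, c2, c3, hc⟩ | ⟨_, _, _, _, _, _, _, _, hcv, _⟩
      · exact Or.inr ⟨b1, b2, b3, n, c1, c2, c3, rfl, by omega, hb, hcr, by omega⟩
      · omega
    · omega
    · have := hh i
      omega
    · have := he i
      omega

lemma per_mul {φ : ℕ → ℕ} {N : ℕ} (hper : ∀ t, N ≤ t → φ (t + N) = φ t) (t k : ℕ) (ht : N ≤ t) :
    φ (t + N * k) = φ t := by
  induction k with
  | zero => simp
  | succ k ih => rw [mul_add, mul_one, ← add_assoc, hper _ (by omega), ih]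

lemma Crit.sub {φ : ℕ → ℕ} {N j b1 b2 c1 c2 : ℕ} (hper : ∀ t, N ≤ t → φ (t + N) = φ t)
    (hc : Crit φ N j (b1 + N * c1) (b2 + N * c2)) : Crit φ N j b1 b2 := by
  obtain ⟨h1, h2⟩ := hc
  have hc1 : N * c1 = 0 := by
    rcases c1 with _ | c1
    · simp
    · rw [mul_add] at h2
      omega
  rw [hc1, add_zero] at h1 h2
  rcases h2 with h2 | ⟨h2, h3⟩
  · refine ⟨?_, Or.inl h2⟩
    have := per_mul hper (b1 + b2 + 1) c2 (by omega)
    rw [← this, ← h1]
    congr 1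
    ring
  · have h4 : b2 = 0 := by omega
    have h5 : N * c2 = 0 := by omega
    rw [h5, add_zero] at h1
    exact ⟨h1, Or.inr ⟨h4, h3⟩⟩

lemma exists_reduce {N : ℕ} (hN : 1 ≤ N) (s : ℕ) :
    ∃ b c, s = b + N * c ∧ b < 2 * N ∧ (b < N → c = 0) := by
  by_cases hs : s < N
  · exact ⟨s, 0, by simp, by omega, fun _ => rfl⟩
  · have h1 := Nat.mod_add_div s N
    have h2 := Nat.mod_lt s (by omega : N > 0)
    have h3 : 1 ≤ s / N := (Nat.le_div_iff_mul_le (by omega)).2 (by omega)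
    obtain ⟨k, hk⟩ : ∃ k, s / N = k + 1 := ⟨s / N - 1, by omega⟩
    rw [hk, mul_add] at h1
    exact ⟨N + s % N, k, by omega, by omega, by omega⟩

lemma Crit.add {φ : ℕ → ℕ} {N j b1 b2 c1 c2 : ℕ} (hper : ∀ t, N ≤ t → φ (t + N) = φ t)
    (h1 : b1 < N → c1 = 0) (h2 : b2 < N → c2 = 0)
    (hc : Crit φ N j b1 b2) : Crit φ N j (b1 + N * c1) (b2 + N * c2) := by
  obtain ⟨k1, k2⟩ := hc
  have hc1 : c1 = 0 := h1 (by omega)
  subst hc1
  rw [mul_zero, add_zero]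
  rcases k2 with k2 | ⟨k2, k3⟩
  · refine ⟨?_, Or.inl k2⟩
    have := per_mul hper (b1 + b2 + 1) c2 (by omega)
    rw [← k1, ← this]
    congr 1
    ring
  · have hc2 : c2 = 0 := h2 (by omega)
    subst hc2
    exact ⟨by simpa using k1, Or.inr ⟨by simpa using k2, k3⟩⟩

theorem incl {φ : ℕ → ℕ} {N : ℕ} (hN : 1 ≤ N) (hper : ∀ t, N ≤ t → φ (t + N) = φ t)
    {j : Fin M} {t : ℕ} (hφ : φ t ≠ j + 1) {a : Var M → ℕ} (ha : a ∈ spow (UM M N) t) :
    a ∈ spow (UP φ N j) t ∪ spow (UQ M) t := by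
  have hupP := (up_UP φ N j).empty
  by_cases hz : t ≤ a z
  · exact Or.inr ((up_UQ.spow t).le
      (vec_le (Nat.zero_le _) (Nat.zero_le _) (Nat.zero_le _) (Nat.zero_le _) hz) (z_vec_mem t))
  left
  obtain ⟨α, β, s, u, l, l', h0, h1, h2, h3, h4, h5, h6⟩ := UM_struct ha
  by_cases hcrit : s = 1 ∧ l = 0 ∧ l' = 0
  · obtain ⟨rfl, rfl, rfl⟩ := hcrit
    have hu : u = 0 := by omega
    subst hu
    have ht : t = α + β + 1 := by omega
    subst ht
    have hnc : ¬ Crit φ N j α β := fun hc => hφ hc.1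
    obtain ⟨b1, c1, rfl, hb1, hc1⟩ := exists_reduce hN α
    obtain ⟨b2, c2, rfl, hb2, hc2⟩ := exists_reduce hN β
    have hnb : ¬ Crit φ N j b1 b2 := fun hc => hnc (hc.add hper hc1 hc2)
    have g1 : c1 ≤ N * c1 := Nat.le_mul_of_pos_left _ hN
    have g2 : c2 ≤ N * c2 := Nat.le_mul_of_pos_left _ hN
    obtain ⟨c3, hc3⟩ : ∃ c3, c1 + c2 + c3 = 20 * (b1 + N * c1 + (b2 + N * c2)) :=
      ⟨20 * (b1 + N * c1 + (b2 + N * c2)) - c1 - c2, by omega⟩
    obtain ⟨b3, hb3⟩ : ∃ b3, b1 + b2 + b3 + 1 = 20 * N := ⟨20 * N - 1 - b1 - b2, by omega⟩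
    have hm1 : vec M b1 b2 b3 1 0 ∈ UP φ N j :=
      Or.inr (Or.inl ⟨le_rfl, b1, b2, b3, hb3, hnb, le_rfl, le_rfl, le_rfl⟩)
    have hm2 := lat_vec_mem φ N j (b1 + N * c1 + (b2 + N * c2)) c1 c2 c3 hc3.ge
    have hm3 : vec M b1 b2 b3 1 0 + vec M (N * c1) (N * c2) (N * c3) 0 0 ∈
        spow (UP φ N j) (b1 + N * c1 + (b2 + N * c2) + 1) := ⟨_, hm1, _, hm2, rfl⟩
    rw [← vec_add] at hm3
    refine (hupP.spow _).le (vec_le h1 h2 ?_ (by omega) (Nat.zero_le _)) hm3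
    have g3 : N * c1 + N * c2 + N * c3 = 20 * (N * (b1 + N * c1 + (b2 + N * c2))) := by
      rw [← mul_add, ← mul_add, hc3]
      ring
    have g4 : N * (b1 + N * c1 + (b2 + N * c2) + 1) =
        N * (b1 + N * c1 + (b2 + N * c2)) + N := by ring
    omega
  · obtain ⟨n, hn1, hn2⟩ : ∃ n, n * 2 ≤ a v ∧ a v ≤ n * 2 + 1 := ⟨a v / 2, by omega, by omega⟩
    by_cases hnt : t ≤ n
    · exact (hupP.spow t).le
        (vec_le (Nat.zero_le _) (Nat.zero_le _) (Nat.zero_le _) hn1 (Nat.zero_le _))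
        (spow_anti hupP hnt (v_vec_mem φ N j n))
    obtain ⟨t', ht'⟩ : ∃ t', t = n + t' := ⟨t - n, by omega⟩
    obtain ⟨k, hk⟩ : ∃ k, l + n = u + l' + k := ⟨l + n - u - l', by omega⟩
    have hk1 : 1 ≤ k := by omega
    have hk2 : s ≤ 8 * k := by omega
    have hk3 : t' + k = α + β + s + 2 * l := by omega
    have g1 : N * t' + N * k = N * (α + β + s) + 2 * (N * l) := by
      rw [← mul_add, hk3]
      ring
    have g2 : k ≤ N * k := Nat.le_mul_of_pos_left _ hN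
    have g3 : N ≤ N * k := Nat.le_mul_of_pos_right _ hk1
    have d1 := Nat.mod_add_div (a x1) N
    have d2 := Nat.mod_add_div (a x2) N
    have d3 := Nat.mod_add_div (a x3) N
    have m1 := Nat.mod_lt (a x1) (by omega : N > 0)
    have m2 := Nat.mod_lt (a x2) (by omega : N > 0)
    have m3 := Nat.mod_lt (a x3) (by omega : N > 0)
    have hc : 20 * t' ≤ a x1 / N + a x2 / N + a x3 / N := by
      by_contra hlt
      have hlt' : a x1 / N + a x2 / N + a x3 / N + 1 ≤ 20 * t' := by omega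
      have g4 := Nat.mul_le_mul_left N hlt'
      have g5 : N * (a x1 / N + a x2 / N + a x3 / N + 1) =
          N * (a x1 / N) + N * (a x2 / N) + N * (a x3 / N) + N := by ring
      have g6 : N * (20 * t') = 20 * (N * t') := by ring
      omega
    have hm := add_mem_spow hupP (v_vec_mem φ N j n) (lat_vec_mem φ N j t' _ _ _ hc)
    rw [← vec_add, ← ht'] at hm
    exact (hupP.spow t).le (vec_le (by omega) (by omega) (by omega) (by omega) (by omega)) hm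

theorem non_incl {φ : ℕ → ℕ} {N : ℕ} (hN : 1 ≤ N) (hper : ∀ t, N ≤ t → φ (t + N) = φ t)
    {j : Fin M} {t : ℕ} (ht : 1 ≤ t) (hφ : φ t = j + 1) :
    ∃ a ∈ spow (UM M N) t, a ∉ spow (UP φ N j) t ∪ spow (UQ M) t := by
  obtain ⟨s, s', rfl, hs⟩ : ∃ s s', t = s + s' + 1 ∧ (s + 1 = N ∨ (s' = 0 ∧ s < N)) :=
    ⟨min (t - 1) (N - 1), t - 1 - min (t - 1) (N - 1), by omega, by omega⟩
  have hcr : Crit φ N j s s' := ⟨hφ, hs⟩
  obtain ⟨D, hD⟩ : ∃ D, 20 * N = D + 1 := ⟨20 * N - 1, by omega⟩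
  have hg : vec M 1 0 D 0 1 ∈ UM M N := Or.inl ⟨le_rfl, hD.le, le_rfl⟩
  have hh : vec M 0 1 D 0 1 ∈ UM M N := Or.inr (Or.inl ⟨le_rfl, hD.le, le_rfl⟩)
  have hm : vec M 0 0 D 1 0 ∈ UM M N := Or.inr (Or.inr (Or.inl ⟨hD.le, le_rfl⟩))
  have h1 := add_mem_spow (up_UM N).empty (nsmul_mem_spow hg s) (nsmul_mem_spow hh s')
  have h2 : vec M 0 0 D 1 0 + (s • vec M 1 0 D 0 1 + s' • vec M 0 1 D 0 1) ∈
      spow (UM M N) (s + s' + 1) := ⟨_, hm, _, h1, rfl⟩
  rw [vec_smul, vec_smul, ← vec_add, ← vec_add] at h2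
  refine ⟨_, h2, ?_⟩
  have g0 : 20 * (N * (s + s' + 1)) = D + (s * D + s' * D) + (s + s' + 1) := by
    have : 20 * (N * (s + s' + 1)) = (20 * N) * (s + s' + 1) := by ring
    rw [this, hD]
    ring
  rintro (h3 | h3)
  · rcases UP_struct h3 (fun _ => rfl) (fun _ => rfl) (by simp [vec]) with
      ⟨c1, c2, c3, k0, k1, k2, k3⟩ | ⟨b1, b2, b3, n', c1, c2, c3, hn, _, hb, hnc, k0, k1, k2, k3⟩
    · simp only [vec] at k1 k2 k3
      have g1 := Nat.mul_le_mul_left N k0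
      have g2 : N * (20 * (s + s' + 1)) = 20 * (N * (s + s' + 1)) := by ring
      have g3 : N * (c1 + c2 + c3) = N * c1 + N * c2 + N * c3 := by ring
      omega
    · simp only [vec] at k1 k2 k3
      have hn' : n' = s + s' := by omega
      subst hn'
      have g1 := Nat.mul_le_mul_left N k0
      have g2 : N * (20 * (s + s')) + 20 * N = 20 * (N * (s + s' + 1)) := by ring
      have g3 : N * (c1 + c2 + c3) = N * c1 + N * c2 + N * c3 := by ring
      have e1 : s = b1 + N * c1 := by omega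
      have e2 : s' = b2 + N * c2 := by omega
      rw [e1, e2] at hcr
      exact hnc (hcr.sub hper)
  · have := UQ_struct h3 (fun _ => rfl) (fun _ => rfl)
    simp only [vec] at this
    omega

end Pool.Agent.P.MP_b90300_al
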