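import Mathlib
import Pool.Agent.P.MP_b90300_al.Gadget

namespace Pool.Agent.P.MP_b90300_al

universe u

open Var

variable {M : ℕ}

/-- The facets of the construction. -/
def FF (M : ℕ) : Option (Option (Fin M)) → Set (Var M)
  | none => F0 M
  | some none => FQ M
  | some (some j) => FP j

/-- The primary components of the construction. -/
def UU (φ : ℕ → ℕ) (M N : ℕ) : Option (Option (Fin M)) → Set (Var M → ℕ)
  | none => UM M N
  | some none => UQ M
  | some (some j) => UP φ N j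

lemma pow_UM (N : ℕ) (x : Var M) (hx : x ∉ F0 M) : ∃ c, Pi.single x c ∈ UM M N := by
  cases x with
  | x1 => exact ⟨40 * N, by simp [UM]⟩
  | x2 => exact ⟨40 * N, by simp [UM]⟩
  | x3 => exact ⟨40 * N, by simp [UM]⟩
  | v => exact ⟨4, by simp [UM]⟩
  | z => exact ⟨5, by simp [UM]⟩
  | w i => simp [F0] at hx
  | h i => simp [F0] at hx
  | e i => simp [F0] at hx

lemma pow_UQ (x : Var M) (hx : x ∉ FQ M) : ∃ c, Pi.single x c ∈ UQ M := by
  cases x with
  | z => exact ⟨1, Or.inl (by simp)⟩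
  | w i => exact ⟨1, Or.inr ⟨i, Or.inl (by simp)⟩⟩
  | e i => exact ⟨1, Or.inr ⟨i, Or.inr (by simp)⟩⟩
  | x1 => simp [FQ] at hx
  | x2 => simp [FQ] at hx
  | x3 => simp [FQ] at hx
  | v => simp [FQ] at hx
  | h i => simp [FQ] at hx

lemma pow_UP (φ : ℕ → ℕ) (N : ℕ) (j : Fin M) (x : Var M) (hx : x ∉ FP j) :
    ∃ c, Pi.single x c ∈ UP φ N j := by
  cases x with
  | x1 => exact ⟨N * 20, Or.inl ⟨20, 0, 0, by simp⟩⟩
  | x2 => exact ⟨N * 20, Or.inl ⟨0, 20, 0, by simp⟩⟩
  | x3 => exact ⟨N * 20, Or.inl ⟨0, 0, 20, by simp⟩⟩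
  | v => exact ⟨2, Or.inr (Or.inr (Or.inl (by simp)))⟩
  | z => simp [FP] at hx
  | w i => simp [FP] at hx
  | h i => exact ⟨1, Or.inr (Or.inr (Or.inr (Or.inl ⟨i, by simpa [FP] using hx, by simp⟩)))⟩
  | e i => exact ⟨1, Or.inr (Or.inr (Or.inr (Or.inr ⟨i, by simpa [FP] using hx, by simp⟩)))⟩

lemma up_UU (φ : ℕ → ℕ) (N : ℕ) : ∀ i, Up (FF M i) (UU φ M N i)
  | none => up_UM N
  | some none => up_UQ
  | some (some j) => up_UP φ N j

lemma pow_UU (φ : ℕ → ℕ) (N : ℕ) : ∀ i x, x ∉ FF M i → ∃ c, Pi.single x c ∈ UU φ M N i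
  | none => pow_UM N
  | some none => pow_UQ
  | some (some j) => pow_UP φ N j

lemma zero_UU (φ : ℕ → ℕ) {N : ℕ} (hN : 1 ≤ N) : ∀ i, (0 : Var M → ℕ) ∉ UU φ M N i
  | none => by
    simp only [UU, UM, Set.mem_ofPred_eq, Pi.zero_apply]
    omega
  | some none => by simp [UU, UQ]
  | some (some j) => by
    rintro (⟨c1, c2, c3, h0, h1, h2, h3⟩ | h | h | ⟨i, _, h⟩ | ⟨i, _, h⟩)
    · simp only [Pi.zero_apply] at h1 h2 h3
      have g1 : c1 ≤ N * c1 := Nat.le_mul_of_pos_left _ hN
      have g2 : c2 ≤ N * c2 := Nat.le_mul_of_pos_left _ hN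
      have g3 : c3 ≤ N * c3 := Nat.le_mul_of_pos_left _ hN
      omega
    · simp at h
    · simp at h
    · simp at h
    · simp at h

lemma inc_FF (j0 : Fin M) : ∀ i j, i ≠ j → ∃ x, x ∈ FF M i ∧ x ∉ FF M j
  | none, none => fun h => absurd rfl h
  | none, some none => fun _ => ⟨w j0, by simp [FF, F0, FQ]⟩
  | none, some (some j) => fun _ => ⟨h j, by simp [FF, F0, FP]⟩
  | some none, none => fun _ => ⟨x1, by simp [FF, F0, FQ]⟩
  | some none, some none => fun h => absurd rfl h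
  | some none, some (some j) => fun _ => ⟨x1, by simp [FF, FP, FQ]⟩
  | some (some i), none => fun _ => ⟨z, by simp [FF, F0, FP]⟩
  | some (some i), some none => fun _ => ⟨z, by simp [FF, FQ, FP]⟩
  | some (some i), some (some j) => fun hij => ⟨e i, by
      have : i ≠ j := fun h => hij (by rw [h])
      simp [FF, FP, this]⟩

lemma iInter_UU (φ : ℕ → ℕ) (N t : ℕ) :
    ⋂ i, spow (UU φ M N i) t =
      spow (UM M N) t ∩ (⋂ j : Fin M, spow (UP φ N j) t) ∩ spow (UQ M) t := by
  ext a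
  simp only [Set.mem_iInter, Set.mem_inter_iff]
  constructor
  · intro h
    exact ⟨⟨h none, fun j => h (some (some j))⟩, h (some none)⟩
  · rintro ⟨⟨h1, h2⟩, h3⟩ i
    rcases i with _ | _ | j
    · exact h1
    · exact h3
    · exact h2 j

lemma add_single_mem {V : Type} [DecidableEq V] {U : Set (V → ℕ)} (hU : Up ∅ U) {x : V} {c : ℕ}
    (hc : Pi.single x c ∈ U) (a : V → ℕ) (t : ℕ) : a + Pi.single x (t * c) ∈ spow U t := by
  have := nsmul_mem_spow hc t
  rw [← Pi.single_smul, smul_eq_mul] at this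
  exact (hU.spow t).le (fun y => Nat.le_add_left _ _) this

theorem depth_UU {φ : ℕ → ℕ} {N : ℕ} (hN : 1 ≤ N) (hper : ∀ t, N ≤ t → φ (t + N) = φ t)
    {r : ℕ} (ε : Var M ≃ Fin r) (K : Type u) [Field K] {j : Fin M} {t : ℕ} (ht : 1 ≤ t)
    (hφ : φ t = j + 1) :
    depth (symbolicPower (MI ε K (⋂ i, UU φ M N i)) t) = (φ t : ℕ) := by
  classical
  rw [symbolicPower_MI (FF M) (UU φ M N) (up_UU φ N) (pow_UU φ N) (zero_UU φ hN) (inc_FF j),
    iInter_UU]
  have hA := (up_UM (M := M) N).spow t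
  have hC := (up_UQ (M := M)).spow t
  have hBj := fun i : Fin M => (up_UP φ N i).spow t
  have hZ : spow (UM M N) t ∩ ((⋂ i : Fin M, spow (UP φ N i) t) ∪ spow (UQ M) t) =
      spow (UM M N) t ∩ (spow (UP φ N j) t ∪ spow (UQ M) t) := by
    ext a
    simp only [Set.mem_iInter, Set.mem_inter_iff, Set.mem_union]
    constructor
    · rintro ⟨h1, h2 | h2⟩
      · exact ⟨h1, Or.inl (h2 j)⟩
      · exact ⟨h1, Or.inr h2⟩
    · rintro ⟨h1, h2⟩
      refine ⟨h1, ?_⟩
      by_cases hq : a ∈ spow (UQ M) t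
      · exact Or.inr hq
      · refine Or.inl fun i => ?_
        by_cases hij : i = j
        · exact hij ▸ h2.resolve_right hq
        · have hne : φ t ≠ i + 1 := by
            rw [hφ]
            intro h
            exact hij (Fin.ext (by omega))
          exact (incl hN hper hne h1).resolve_right hq
  have hw : Function.Injective (w : Fin M → Var M) := fun _ _ h => by simpa using h
  have hh : Function.Injective (h : Fin M → Var M) := fun _ _ h => by simpa using h
  have cW : (Finset.univ.image (w : Fin M → Var M)).card = M := by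
    simp [Finset.card_image_of_injective _ hw]
  have cH : (Finset.univ.image (h : Fin M → Var M)).card = M := by
    simp [Finset.card_image_of_injective _ hh]
  have cY : ((Finset.Iio j).image (h : Fin M → Var M)).card = j := by
    simp [Finset.card_image_of_injective _ hh]
  obtain ⟨a, ha, hna⟩ := non_incl (M := M) hN hper ht hφ
  have key := depth_three (e := ε) (K := K) hA.empty (Up.iInter fun i => (hBj i).empty) hC.empty
    (Finset.univ.image w) (Finset.univ.image h) ((Finset.Iio j).image h)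
    (by rw [cW, cY]; exact j.2) (by rw [cH, cY]; exact j.2) ?_ ?_ ?_ (a := a) ?_ ?_
  · rw [key, cY, hφ]
  · refine (hA.mono ?_).inter (Up.iInter fun i => (hBj i).mono ?_)
    · intro x hx
      obtain ⟨i, _, rfl⟩ := Finset.mem_image.1 hx
      simp [F0]
    · intro x hx
      obtain ⟨i, _, rfl⟩ := Finset.mem_image.1 hx
      simp [FP]
  · refine (hA.mono ?_).inter (hC.mono ?_)
    · intro x hx
      obtain ⟨i, _, rfl⟩ := Finset.mem_image.1 hx
      simp [F0]
    · intro x hx
      obtain ⟨i, _, rfl⟩ := Finset.mem_image.1 hx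
      simp [FQ]
  · rw [hZ]
    refine (hA.mono ?_).inter (((hBj j).mono ?_).union (hC.mono ?_))
    · intro x hx
      obtain ⟨i, _, rfl⟩ := Finset.mem_image.1 hx
      simp [F0]
    · intro x hx
      obtain ⟨i, hi, rfl⟩ := Finset.mem_image.1 hx
      simpa [FP] using hi
    · intro x hx
      obtain ⟨i, _, rfl⟩ := Finset.mem_image.1 hx
      simp [FQ]
  · rw [hZ]
    exact fun h => hna h.2
  · intro x hx
    rw [hZ]
    have hx' : x ∉ FP j ∨ x ∉ FQ M := by
      cases x with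
      | h i =>
        left
        simpa [FP] using hx
      | x1 => simp [FP]
      | x2 => simp [FP]
      | x3 => simp [FP]
      | v => simp [FP]
      | z => simp [FQ]
      | w i => simp [FQ]
      | e i => simp [FQ]
    rcases hx' with hx' | hx'
    · obtain ⟨c, hc⟩ := pow_UP φ N j x hx'
      exact ⟨t * c, hA.le (fun y => Nat.le_add_right _ _) ha,
        Or.inl (add_single_mem (up_UP φ N j).empty hc a t)⟩
    · obtain ⟨c, hc⟩ := pow_UQ x hx'
      exact ⟨t * c, hA.le (fun y => Nat.le_add_right _ _) ha,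
        Or.inr (add_single_mem up_UQ.empty hc a t)⟩

lemma exists_period {φ : ℕ → ℕ} {p t₀ : ℕ} (hp : 1 ≤ p) (ht₀ : 1 ≤ t₀)
    (h : ∀ t, t₀ ≤ t → φ (t + p) = φ t) :
    ∃ N, 1 ≤ N ∧ ∀ t, N ≤ t → φ (t + N) = φ t := by
  have h1 : ∀ k t, t₀ ≤ t → φ (t + p * k) = φ t := by
    intro k t ht
    induction k with
    | zero => simp
    | succ k ih => rw [mul_add, mul_one, ← add_assoc, h _ (by omega), ih]
  have h2 : t₀ ≤ p * t₀ := Nat.le_mul_of_pos_left _ hp
  exact ⟨p * t₀, by omega, fun t ht => h1 t₀ t (by omega)⟩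

lemma exists_bound {φ : ℕ → ℕ} {N : ℕ} (hN : 1 ≤ N) (hper : ∀ t, N ≤ t → φ (t + N) = φ t) :
    ∃ M, ∀ t, φ t ≤ M := by
  refine ⟨(Finset.range (2 * N)).sup φ, fun t => ?_⟩
  obtain ⟨b, c, rfl, hb, hc⟩ := exists_reduce hN t
  have hle : φ b ≤ (Finset.range (2 * N)).sup φ := Finset.le_sup (Finset.mem_range.2 hb)
  by_cases hbN : b < N
  · rw [hc hbN]
    simpa using hle
  · rw [per_mul hper b c (by omega)]
    exact hle

end Pool.Agent.P.MP_b90300_al
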